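import Pool.Agent.W603.LV.Ord

/-!
Orders of variables from orders of forms without common zeros.
-/

set_option autoImplicit false

open FF MvPolynomial Pool.Agent.W603.LV

namespace Pool.Agent.Z932.OB

theorem aeval_scale {k L : Type} [Field k] [Field L] [Algebra k L] {n m : ℕ}
    {p : MvPolynomial (Fin n) k} (hp : p.IsHomogeneous m) (s : L) (ζ : Fin n → L) :
    aeval (fun j => s * ζ j) p = s ^ m * aeval ζ p := by
  rw [aeval_def, aeval_def, eval₂_eq', eval₂_eq', Finset.mul_sum]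
  refine Finset.sum_congr rfl fun α hα => ?_
  have h2 := hp (mem_support_iff.1 hα)
  rw [Finsupp.weight_apply, Finsupp.sum_fintype _ _ (by simp)] at h2
  have h3 : ∑ j, α j = m := by simpa using h2
  simp only [mul_pow, Finset.prod_mul_distrib]
  rw [Finset.prod_pow_eq_pow_sum, h3]
  ring

theorem ge_aeval' {k L : Type} [Field k] [Field L] [Algebra k L] {w : Place k L} {σ : Type}
    (x : σ → L) (hx : ∀ p, Ge w 0 (x p)) (Q : MvPolynomial σ k) : Ge w 0 (aeval x Q) := by
  induction Q using MvPolynomial.induction_on with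
  | C c =>
    rw [aeval_C]
    exact Ge.const c
  | add p q hp hq =>
    rw [map_add]
    exact hp.add hq
  | mul_X p i hp =>
    rw [map_mul, aeval_X]
    have := hp.mul (hx i)
    rwa [add_zero] at this

theorem val (k L : Type) [Field k] [Field L] [Algebra k L] (n m N : ℕ)
    (w : Place k L) (θ : ℝ) (c : Fin n → MvPolynomial (Fin n) k) (ζ : Fin n → L) (hm : 1 ≤ m)
    (hc : ∀ j, (c j).IsHomogeneous m)
    (hN : ∀ β : Fin n →₀ ℕ, β.degree = N → monomial β 1 ∈ Ideal.span (Set.range c))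
    (hv : ∀ j, aeval ζ (c j) = 0 ∨ -(m * θ) ≤ (w.ord (aeval ζ (c j)) : ℝ)) (i : Fin n) :
    ζ i = 0 ∨ -θ ≤ (w.ord (ζ i) : ℝ) := by
  classical
  by_contra hcon
  push Not at hcon
  obtain ⟨hi0, hi1⟩ := hcon
  obtain ⟨i0, hi0m, hmin⟩ := Finset.exists_min_image
    (Finset.univ.filter fun j : Fin n => ζ j ≠ 0) (fun j => w.ord (ζ j))
    ⟨i, by rw [Finset.mem_filter]; exact ⟨Finset.mem_univ _, hi0⟩⟩
  have hne : ζ i0 ≠ 0 := (Finset.mem_filter.1 hi0m).2
  have hμ : (w.ord (ζ i0) : ℝ) < -θ := by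
    have h1 := hmin i (by rw [Finset.mem_filter]; exact ⟨Finset.mem_univ _, hi0⟩)
    have h2 : (w.ord (ζ i0) : ℝ) ≤ w.ord (ζ i) := by exact_mod_cast h1
    linarith
  have hsne : (ζ i0)⁻¹ ≠ 0 := inv_ne_zero hne
  have hx : ∀ j, Ge w 0 ((ζ i0)⁻¹ * ζ j) := by
    intro j
    by_cases hj : ζ j = 0
    · left
      rw [hj, mul_zero]
    · right
      rw [w.ord_mul hsne hj, w.ord_inv]
      have h1 := hmin j (by rw [Finset.mem_filter]; exact ⟨Finset.mem_univ _, hj⟩)
      omega
  have hcj : ∀ j, Ge w 1 (aeval (fun j => (ζ i0)⁻¹ * ζ j) (c j)) := by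
    intro j
    rw [aeval_scale (hc j)]
    by_cases h0 : aeval ζ (c j) = 0
    · left
      rw [h0, mul_zero]
    · right
      rw [w.ord_mul (pow_ne_zero _ hsne) h0, w.ord_pow, w.ord_inv]
      have h1 := (hv j).resolve_left h0
      have hm' : (1 : ℝ) ≤ m := by exact_mod_cast hm
      have h2 : (0 : ℝ) < ((m * -w.ord (ζ i0) + w.ord (aeval ζ (c j)) : ℤ) : ℝ) := by
        push_cast
        have h3 : 0 < (m : ℝ) * (-θ - w.ord (ζ i0)) := mul_pos (by linarith) (by linarith)
        linarith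
      have h4 : (0 : ℤ) < m * -w.ord (ζ i0) + w.ord (aeval ζ (c j)) := by exact_mod_cast h2
      omega
  have h1 := hN (Finsupp.single i0 N) (by simp)
  rw [Ideal.mem_span_range_iff_exists_fun] at h1
  obtain ⟨g, hg⟩ := h1
  have h2 := congrArg (aeval (fun j => (ζ i0)⁻¹ * ζ j)) hg
  rw [map_sum, aeval_monomial, map_one, one_mul, Finsupp.prod_single_index (by simp),
    inv_mul_cancel₀ hne, one_pow] at h2
  have h3 : Ge w 1 (1 : L) := by
    rw [← h2]
    refine Ge.sum _ _ fun j _ => ?_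
    rw [map_mul]
    have := (ge_aeval' _ hx (g j)).mul (hcj j)
    rwa [zero_add] at this
  rcases h3 with h3 | h3
  · exact one_ne_zero h3
  · rw [w.ord_one] at h3
    omega

end Pool.Agent.Z932.OB
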