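import Pool.Agent.Y174.OB.Stm
import Pool.Agent.Z932.OB.Val0

/-!
Orders of variables from orders of forms without common zeros (`S_VAL`).
-/

set_option autoImplicit false

namespace Pool.Agent.Z932.OB

theorem t_VAL : Pool.Agent.Y174.OB.S_VAL := by
  intro k L _ _ _ n m N w θ c ζ hm hc hN hv i
  exact val k L n m N w θ c ζ hm hc hN hv i

end Pool.Agent.Z932.OB
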